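import Pool.Agent.Lib.MP_446dfa_ag.ddi.Assemble
import Pool.Agent.Lib.MP_446dfa_ag.gt.Fin

/-!
# The Grothendieck-Teichmueller Lie algebra is free on generators of degrees 3, 5, 7, ...

`K` is a field of characteristic zero (for instance `ℚ`).  The Lie algebra `grt₁` is the space of
all elements `ψ` of the free Lie algebra `F2 K` on `A = gA K`, `B = gB K` satisfying `IsGRT ψ`
(Drinfeld's antisymmetry, 3-cycle, hexagon and pentagon relations), with the Ihara bracket
`iharaBracket`.  The motivic Lie algebra is the free Lie algebra `FreeLieAlgebra K ℕ` on generators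
`σ_0, σ_1, σ_2, …`, where `σ_i = FreeLieAlgebra.of K i` has degree `2 i + 3`.

The definitions used by the statement are in `helper2/Defs.lean` (`F2`, `ev`, `InfBraid`, `IsGRT`,
`iharaBracket`), `ddi/Official.lean` (`wordCoeff`, `IsHomog`, `IsGradedHom`) and `gt/Defs.lean`
(`IsGT1`), all in the folder `Pool/Agent/Lib/MP_446dfa_ag`.

Relation with the question about `G_π → GT`: let `GT₁` be the kernel of `λ : GT → 𝔾_m`.  The Lie
algebra of the prounipotent radical `U` of `G_π` is filtered by the weight (degree), and its graded
Lie algebra is, by the known facts listed in the problem, the free Lie algebra on generators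
`σ_0, σ_1, …`; as `G_π → GT` is injective (and `𝔾_m` acts), it injects into the graded Lie algebra
of `GT₁`, for the filtration by the degree.  By (4) the latter is contained in `grt₁`.  By (2) an
injective graded homomorphism from the free Lie algebra on the `σ_i` to `grt₁` is onto.  Hence
`U = GT₁` and `G_π = GT`.

Idea of the proof.  Upper bound: by additivity one may replace the coefficients of `ψ ∈ grt₁` by
their images in `ℤ / 2` under a homomorphism from the group they generate.  In the quotient of the
enveloping algebra of the Lie algebra of the five strand pure sphere braid group by the squares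
of the `x_{ij}` with `2 ≤ i < j ≤ 5` the pentagon relation forces the reduction of `ψ` to be
congruent, modulo the ideal generated by `y²`, to a Lie polynomial in `[x, y]` and `[x², y]`, and to
be zero if this Lie polynomial is.  These have weights `2` and `3`, and the free Lie algebra
on generators of weights `2` and `3` has the same dimensions, in weights at least `3`, as the free
Lie algebra on generators of weights `3, 5, 7, …`.  Freeness: the same reduction, applied to the
lattice generated by the brackets of the `σ_i`.  Existence of the `σ_i`: the real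
Knizhnik-Zamolodchikov series `Φ(x, y)` and `Φ(-x, -y)` satisfy the pentagon relation, and their
coefficients at `x^(n-1) y` are different for `n` odd; the two are compared degree by degree.
-/

namespace Pool.Agent.Results.MP_446dfa_ag.DDI

open MP446 MP446D MP446G

universe u

/-- (1) `grt₁` is isomorphic, as a graded Lie algebra, to the free Lie algebra on generators of
degrees `3, 5, 7, …`.
(2) Every injective homomorphism of graded Lie algebras from this free Lie algebra to `grt₁` is
onto `grt₁`.
(3) Any elements `σ_i` of `grt₁`, `i ≥ 0`, homogeneous of degree `2 i + 3` and such that the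
coefficient of `σ_i` at `A^(2 i + 2) B` is not zero, freely generate `grt₁`.
(4) If `f = 1 + f_n + (terms of degree > n)` is an element of `GT₁(K)`, then `f_n` is in `grt₁`. -/
theorem result {K : Type u} [Field K] [CharZero K] :
    (∃ φ : FreeLieAlgebra K ℕ →ₗ[K] F2 K, IsGradedHom φ ∧ Function.Injective φ ∧
      ∀ ψ, IsGRT ψ → ∃ x, φ x = ψ) ∧
    (∀ φ : FreeLieAlgebra K ℕ →ₗ[K] F2 K, IsGradedHom φ → Function.Injective φ →
      ∀ ψ, IsGRT ψ → ∃ x, φ x = ψ) ∧
    (∀ σ : ℕ → F2 K, (∀ i, IsGRT (σ i)) → (∀ i, IsHomog (2 * i + 3) (σ i)) →
      (∀ i, wordCoeff (σ i) (List.replicate (2 * i + 2) 0 ++ [1]) ≠ 0) →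
      ∃ φ : FreeLieAlgebra K ℕ →ₗ[K] F2 K, IsGradedHom φ ∧
        (∀ i, φ (FreeLieAlgebra.of K i) = σ i) ∧ Function.Injective φ ∧
        ∀ ψ, IsGRT ψ → ∃ x, φ x = ψ) ∧
    (∀ f : List (Fin 2) → K, IsGT1 f → ∀ n : ℕ, 1 ≤ n →
      (∀ w : List (Fin 2), w ≠ [] → w.length < n → f w = 0) →
      ∃ ψ : F2 K, IsGRT ψ ∧
        ∀ w : List (Fin 2), wordCoeff ψ w = if w.length = n then f w else 0) := by
  refine ⟨?_, fun φ h hinj => surjective_of_injective h hinj,
    fun σ h1 h2 h3 => exists_of_sigma σ h1 h2 h3, fun f hf n hn hv => leading_term hf hn hv⟩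
  choose σ h1 h2 h3 using MP446S.exists_sigma K
  obtain ⟨φ, k1, _, k3, k4⟩ := exists_of_sigma σ h1 h2 h3
  exact ⟨φ, k1, k3, k4⟩

end Pool.Agent.Results.MP_446dfa_ag.DDI
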