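import Pool.Agent.Lib.MP_446dfa_ag.grp.Main
import Pool.Agent.Lib.MP_446dfa_ag.unc.All

/-!
# The motivic Galois group of mixed Tate motives over `ℤ` is the Grothendieck-Teichmueller group

All groups are group functors on commutative `ℚ`-algebras `R`.

`G` is the group `U ⋊ 𝔾_m`, where `U(R)` is the group of the group-like formal power series in the
non-commuting variables `σ_0, σ_1, σ_2, …` of weights `3, 5, 7, …`, with coefficients in `R`, and
`c ∈ 𝔾_m(R) = Rˣ` acts on `U(R)` by `σ_i ↦ c ^ (2 i + 3) σ_i`.  The type of the elements of `G(R)`
is `Mot R`; it is a group.  By the facts listed in the problem (the Lie algebra of `U^mot`, graded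
by the action of `𝔾_m`, is free with one generator in each of the degrees `3, 5, 7, …`, and
`G^mot → G_π` is an isomorphism) the group `G_π` is isomorphic to `G`.

`GT(R)` is the set of the pairs `(λ, f)`, with `λ ∈ Rˣ` and `f` in the prounipotent completion over
`R` of the free group on two generators, which satisfy the 2-cycle, hexagon and pentagon relations
of Drinfeld; the composition law is that of Drinfeld, described by `IsProduct a b c`, which says
that `c` is the product of `a` and `b`.  The type of the elements of `GT(R)` is `GT R`.

The definitions are in the files `Defs.lean`, `Mot.lean` (the group structure of `G(R)`) and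
`Mono.lean` of the folder `Pool/Agent/Lib/MP_446dfa_ag/grp`.

The theorem says that there are monomorphisms `ρ : G → GT`, and that all of them are isomorphisms;
in particular the natural monomorphism `G_π → GT` is an isomorphism of pro-algebraic groups over
`ℚ`, and `GT` is isomorphic to `G`.  (If one prefers that `ρ` is a homomorphism for the opposite
law of `GT`, i.e. for the composition of the endomorphisms `x ↦ f x^λ f⁻¹`, `y ↦ y^λ`, it suffices
to compose `ρ` with `g ↦ g⁻¹`.)

Idea of the proof of the second part.  One shows that `ρ` is compatible, up to inversion, with the
projections to `𝔾_m`, by comparing the actions of `𝔾_m` on the images of the `σ_i`; and, using the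
action of `𝔾_m` over polynomial rings, that `ρ` maps series of weight at least `n` to series of
degree at least `n`.  The leading terms of `ρ(exp(x))`, for `x` in the component of weight `n` of
the free Lie algebra `L` on the `σ_i`, define a linear injection from this component to the
component of degree `n` of the graded Lie algebra `grt₁`.  By the main theorem of the hand-in `DDI`
the latter has at most the dimension of the former, so that the injection is a bijection.  If two
elements of `GT(R)` with the same `λ` coincide in degrees less than `n`, then their difference in
degree `n` is in `R ⊗ grt₁`.  So the elements of `GT(R)` are approximated successively by elements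
of the image of `ρ`.

Idea of the proof of the first part.  The Knizhnik-Zamolodchikov series is a complex associator;
correcting it degree by degree by the action of the group with the Lie algebra `grt₁` one gets a
rational associator `φ`.  Choose elements `ψ_i ∈ grt₁` of degrees `2 i + 3` which generate `grt₁`
freely.  The group-like series `u` in the `σ_i` act on the associators `(μ, f)`, `σ_i` being the
operator `f ↦ D_i f + f ψ_i`, where `D_i` is the derivation `x ↦ [ψ_i, x]`, `y ↦ 0`; and `c ∈ Rˣ`
acts by `(μ, f) ↦ (c μ, f(c x, c y))`.  For `g ∈ G(R)` let `g · φ` be the image of `φ`; then
`(λ, f)`, with `λ` the component of `g` in `Rˣ` and `f(φ e^x φ⁻¹, e^y) φ = g · φ`, is the image of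
`g⁻¹` under `ρ`.  The pentagon relation for `f` uses that the prounipotent completion of the pure
braid group on four strands is isomorphic to the group of its infinitesimal version; the relations
of Artin for the elements of the latter are deduced from the hexagon and pentagon relations of `φ`.
-/

namespace Pool.Agent.Results.MP_446dfa_ag.MotivicGT

open MP446I

/-- (1) There is a monomorphism from the group functor `G = U ⋊ 𝔾_m` to the group functor `GT`.
(2) Every monomorphism from `G` to `GT` is an isomorphism. -/
theorem result :
    (∃ ρ : ∀ (R : Type) [CommRing R] [Algebra ℚ R], Mot R → GT R, IsMonomorphism ρ) ∧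
    (∀ ρ : ∀ (R : Type) [CommRing R] [Algebra ℚ R], Mot R → GT R, IsMonomorphism ρ →
      ∀ (R : Type) [CommRing R] [Algebra ℚ R], Function.Bijective (ρ R)) :=
  ⟨MP446U.exists_monomorphism, fun _ hρ R _ _ => bijective_of_isMonomorphism hρ R⟩

end Pool.Agent.Results.MP_446dfa_ag.MotivicGT
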