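import Pool.Agent.Lib.MP_446dfa_ag.helper66.Final

/-!
# Coefficients of the elements of the Grothendieck-Teichmueller Lie algebra

`grt₁` is the graded Lie algebra of (the unipotent part of) Drinfeld's group `GT`: the space of all
elements of the free Lie algebra on two generators `x`, `y` satisfying `IsGRT`.  We show that an
element of `grt₁` is determined by its coefficients at the words
`x^(k₁-1) y x^(k₂-1) y ⋯ x^(k_r-1) y` with all `k_i ≥ 2`, and we deduce an upper bound for the
dimension of the homogeneous components of `grt₁`.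

The definitions used by the statement are `F2`, `ev`, `InfBraid`, `IsGRT` (in
`Pool/Agent/Lib/MP_446dfa_ag/helper2/Defs.lean`), `assoc` (in
`Pool/Agent/Lib/MP_446dfa_ag/helper66/LieW.lean`), `zword`, `coef`, `grt` and `Pentagon` (in
`Pool/Agent/Lib/MP_446dfa_ag/helper66/Final.lean`).

Idea of the proof: by additivity one may replace the coefficients by their images in `ℤ / 2` under
a homomorphism from the group they generate.  The algebra `R = ℤ/2⟨x, u, b⟩ / (u², b²)` is a module
over the enveloping algebra of the Drinfeld-Kohno Lie algebra `𝔱₄`, in which `t₂₃` and `t₃₄` act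
with square zero.  Hence a polynomial without monomials in which `yy` does not occur, and which
satisfies the pentagon relation, satisfies `ψ(t₁₂, t₂₃ + t₂₄) = ψ(t₁₂ + t₁₃, t₂₄ + t₃₄)` on `R`;
this operator commutes with `t₃₄` and `t₂₃`, hence with
`(t₂₃ + t₂₄)² = t₂₃ t₃₄ + t₃₄ t₂₃`.  As `t₁₂` and `t₂₃ + t₂₄` generate a free algebra of operators
of `R` (this is the main point), `ψ` commutes with `y²`, and so `ψ = 0`.
-/

namespace Pool.Agent.Results.MP_446dfa_ag.NoOnes

open MP446 MP446Y

universe u

/-- (1) If an element `ψ` of the free Lie algebra on `x`, `y` satisfies the pentagon relation (for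
instance `ψ ∈ grt₁`), and if its coefficients at the words `x^(k₁-1) y ⋯ x^(k_r-1) y` vanish for all
`r ≥ 1` and all `k₁, …, k_r ≥ 2`, then `ψ = 0`.  (2) The homogeneous component of degree `n ≥ 1` of
`grt₁` has dimension at most the Fibonacci number `F_{n-1}`. -/
theorem result {K : Type u} [Field K] [CharZero K] :
    (∀ ψ : F2 K, Pentagon ψ →
      (∀ l : List ℕ, l ≠ [] → (∀ k ∈ l, 2 ≤ k) → coef ψ (zword l) = 0) → ψ = 0) ∧
    ∀ n : ℕ, 1 ≤ n → Module.rank K (grt K n) ≤ (Nat.fib (n - 1) : Cardinal) :=
  ⟨eq_zero_of_zword, rank_grt_le⟩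

end Pool.Agent.Results.MP_446dfa_ag.NoOnes
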